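import Pool.Agent.Helper11.EP.Class

/-!
# Exponent pairs: exactly what the first `k` derivatives give

Definitions (in `Pool.Agent.Helper11.EP.Lower` and `Pool.Agent.Helper11.EP.Class`): `Small k η N F P`: `P` is
smooth and `|P^(j)| ≤ η F / N ^ j` on `[N, 2N]` for `j ≤ k`; `expSum N f = ∑_{N ≤ n ≤ 2N} e(f(n))`;
`BoundNear k η φ p q`: the sums of `e(F φ(n / N) + P(n))` are `≪ F^p N^(q - p + 1/2) F^ε`, uniformly in `N`, `F ≥ N`
and `P` with `Small k η N F P`; `IsPair k p q`: `(p, q)` is an exponent pair if the conditions of the problem are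
only imposed on the derivatives of the orders `j ≤ k`.
-/

set_option autoImplicit false

namespace Pool.Agent.Results.MP_493793_nt.FinitelyManyDerivatives

open Pool.Agent.Helper11.EP

/-- **Exactly what the first `k` derivatives give.**

(1) Let `k ≥ 3`, `η > 0`. There are `A` and `κ > 0` such that for all `N ≥ 1`, all `F` with
`A N ^ (k / (k - 1)) ≤ F ≤ N ^ k` and EVERY function `g` on the integers there is a smooth `P` with
`|P^(j)| ≤ η F / N ^ j` on `[N, 2N]` for all `j ≤ k` and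
`|∑_{N ≤ n ≤ 2N} e(g(n) + P(n))| ≥ κ N^(1/2) F^(1/(2k)) / (1 + log N)`; without the logarithm if `F ≥ A N²`.

(2) Let `φ` be any function. If the bound of the exponent pair `(p, q)` holds for the sums of
`e(F φ(n / N) + P(n))`, `P` as in (1), then `(k - 1) p + q ≥ 1/2` and `p + (k - 1) q ≥ 1/2`; the same for the
class of the problem with conditions on the derivatives of the orders `j ≤ k` only.

(3) For `k = 3` these conditions are also sufficient (`0 ≤ p, q ≤ 1/2`), for every `φ` on `[1, 2]` with three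
derivatives and `m ≤ |φ''|, |φ'''| ≤ M`, `0 < η < m`, and for the class of the problem. -/
theorem result :
    (∀ k : ℕ, 3 ≤ k → ∀ η : ℝ, 0 < η → ∃ A κ : ℝ, 0 < κ ∧
      ∀ (N : ℕ) (F : ℝ), 1 ≤ N → F ≤ (N : ℝ) ^ k → ∀ g : ℕ → ℝ,
        (A * (N : ℝ) ^ ((k : ℝ) / (k - 1)) ≤ F → ∃ P : ℝ → ℝ, Small k η N F P ∧
          κ * (N : ℝ) ^ (1 / 2 : ℝ) * F ^ (1 / (2 * k) : ℝ) / (1 + Real.log N) ≤
            ‖expSum N (fun n => g n + P n)‖) ∧
        (A * (N : ℝ) ^ 2 ≤ F → ∃ P : ℝ → ℝ, Small k η N F P ∧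
          κ * (N : ℝ) ^ (1 / 2 : ℝ) * F ^ (1 / (2 * k) : ℝ) ≤ ‖expSum N (fun n => g n + P n)‖)) ∧
    (∀ k : ℕ, 3 ≤ k → ∀ p q : ℝ,
      ((∃ η : ℝ, 0 < η ∧ ∃ φ : ℝ → ℝ, BoundNear k η φ p q) ∨ IsPair k p q) →
        1 / 2 ≤ ((k : ℝ) - 1) * p + q ∧ 1 / 2 ≤ p + ((k : ℝ) - 1) * q) ∧
    (∀ p q : ℝ, 0 ≤ p → p ≤ 1 / 2 → 0 ≤ q → q ≤ 1 / 2 →
      (IsPair 3 p q ↔ 1 / 2 ≤ 2 * p + q ∧ 1 / 2 ≤ p + 2 * q) ∧
      ∀ (φ φ1 φ2 φ3 : ℝ → ℝ) (m M η : ℝ), 0 < η → η < m →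
        (∀ u ∈ Set.Icc (1 : ℝ) 2, HasDerivAt φ (φ1 u) u ∧ HasDerivAt φ1 (φ2 u) u ∧
          HasDerivAt φ2 (φ3 u) u ∧ m ≤ |φ2 u| ∧ |φ2 u| ≤ M ∧ m ≤ |φ3 u| ∧ |φ3 u| ≤ M) →
        (BoundNear 3 η φ p q ↔ 1 / 2 ≤ 2 * p + q ∧ 1 / 2 ≤ p + 2 * q)) := by
  have near : ∀ k : ℕ, 3 ≤ k → ∀ η : ℝ, 0 < η → ∀ (φ : ℝ → ℝ) (p q : ℝ), BoundNear k η φ p q →
      1 / 2 ≤ ((k : ℝ) - 1) * p + q ∧ 1 / 2 ≤ p + ((k : ℝ) - 1) * q := fun k hk η hη φ p q h =>
    part2 k hk η hη φ p q h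
  refine ⟨?_, ?_, ?_⟩
  · intro k hk η hη
    obtain ⟨A1, κ1, hκ1, h1⟩ := part1 k hk η hη
    obtain ⟨A2, κ2, hκ2, h2⟩ := part1' k hk η hη
    refine ⟨max A1 A2, min κ1 κ2, lt_min hκ1 hκ2, ?_⟩
    intro N F hN hF g
    have hN1 : (1 : ℝ) ≤ N := by exact_mod_cast hN
    have hlog : 0 ≤ Real.log N := Real.log_nonneg hN1
    constructor
    · intro hA
      obtain ⟨P, hP, hP2⟩ := h2 N F hN ((mul_le_mul_of_nonneg_right (le_max_right A1 A2)
        (by positivity)).trans hA) hF g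
      have hN0 : (0 : ℝ) ≤ (N : ℝ) ^ (1 / 2 : ℝ) := by positivity
      refine ⟨P, hP, le_trans ?_ hP2⟩
      by_cases hF0 : 0 ≤ F
      · have hF0' : 0 ≤ F ^ (1 / (2 * k) : ℝ) := Real.rpow_nonneg hF0 _
        have := min_le_right κ1 κ2
        gcongr
      · exfalso
        have hA2 : 0 ≤ max A1 A2 * (N : ℝ) ^ ((k : ℝ) / (k - 1)) ∨
            max A1 A2 * (N : ℝ) ^ ((k : ℝ) / (k - 1)) < 0 := le_or_gt 0 _
        rcases hA2 with h3 | h3
        · exact hF0 (h3.trans hA)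
        · -- `Small` at `x = N` gives `F ≥ 0`
          have h4 := hP.2 0 (by omega) N ⟨le_rfl, by linarith⟩
          rw [pow_zero, div_one] at h4
          have h5 := abs_nonneg (iteratedDeriv 0 P N)
          have h6 : 0 ≤ η * F := h5.trans h4
          exact hF0 (nonneg_of_mul_nonneg_right h6 hη)
    · intro hA
      obtain ⟨P, hP, hP2⟩ := h1 N F hN ((mul_le_mul_of_nonneg_right (le_max_left A1 A2)
        (by positivity)).trans hA) hF g
      have hF0 : 0 ≤ F := by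
        have h4 := hP.2 0 (by omega) N ⟨le_rfl, by linarith⟩
        rw [pow_zero, div_one] at h4
        have h5 := abs_nonneg (iteratedDeriv 0 P N)
        have h6 : 0 ≤ η * F := h5.trans h4
        exact nonneg_of_mul_nonneg_right h6 hη
      have hF0' : 0 ≤ F ^ (1 / (2 * k) : ℝ) := Real.rpow_nonneg hF0 _
      refine ⟨P, hP, le_trans ?_ hP2⟩
      have := min_le_left κ1 κ2
      gcongr
  · rintro k hk p q (⟨η, hη, φ, h⟩ | h)
    · exact near k hk η hη φ p q h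
    · exact pair_low k hk p q h
  · intro p q hp0 hp1 hq0 hq1
    refine ⟨⟨fun h => ?_, fun h => pair_up p q hp0 hp1 hq0 hq1 h.1 h.2⟩, ?_⟩
    · have h1 := pair_low 3 le_rfl p q h
      norm_num at h1
      constructor <;> linarith [h1.1, h1.2]
    · intro φ φ1 φ2 φ3 m M η hη hηm hφ
      refine ⟨fun h => ?_, fun h => near_up φ φ1 φ2 φ3 m M hφ η hηm p q hp0 hp1 hq0 h.1 h.2⟩
      have h1 := near 3 le_rfl η hη φ p q h
      norm_num at h1
      constructor <;> linarith [h1.1, h1.2]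

end Pool.Agent.Results.MP_493793_nt.FinitelyManyDerivatives
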